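import Pool.Graph.R_seed8.W977.SM.Main

/-!
# The lower bound for submodular matching in one pass, with explicit dependence on the ratio

The hard streams are those of the library module `Pool.Graph.R_seed8.W977.SM.Main`.
-/

set_option autoImplicit false

open Finset

namespace Pool.Agent.H66.SM

open Pool.Agent.W977.SM

/-- The graph of the stream is bipartite, with all edges between `L` and its complement. -/
def IsBipartite {V : Type} (h : List (Sym2 V)) : Prop :=
  ∃ L : Set V, ∀ e ∈ h, ∃ u ∈ L, ∃ v ∉ L, e = s(u, v)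

/-- `f S` is the expected number of the targets `t : τ` which are hit when every edge `e` of `S`
misses `t` with probability `w t e`, independently of the other edges. -/
def IsCoverage {V : Type} [DecidableEq V] (f : Finset (Sym2 V) → ℝ) : Prop :=
  ∃ (τ : Type) (_ : Fintype τ) (w : τ → Sym2 V → ℝ), (∀ t e, 0 ≤ w t e ∧ w t e ≤ 1) ∧
    ∀ S, f S = ∑ t, (1 - ∏ e ∈ S, w t e)

lemma pw_eq_prod {V : Type} [DecidableEq V] {κ : Type} [Fintype κ] (φ : κ → Sym2 V) (w : κ → ℝ)
    (S : Finset (Sym2 V)) : pw φ w S = ∏ e ∈ S, ∏ k, if φ k = e then w k else 1 := by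
  rw [prod_comm]
  unfold pw
  exact prod_congr rfl fun k _ => (prod_ite_eq S (φ k) fun _ => w k).symm

section alg

variable {V : Type} [DecidableEq V] {p : ℕ} {Z : Type} [Fintype Z] [DecidableEq Z] [AddCommGroup Z]
  {φ : Fin p × (Z ⊕ Z × Bool) → V} {Ω : Type} {b : ℕ}

lemma bipartite_strm (hφ : Function.Injective φ) (y : Fin p → Z → Z → Bool) :
    IsBipartite (strm φ (List.finRange p) y) := by
  refine ⟨Set.range fun q : Fin p × Z => φ (q.1, Sum.inl q.2), fun e he => ?_⟩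
  obtain ⟨i, _, d, u, rfl⟩ := mem_strm.1 he
  refine ⟨φ (i, Sum.inl u), ⟨(i, u), rfl⟩, φ (i, Sum.inr (u + d, y i d u)), ?_, rfl⟩
  rintro ⟨q, hq⟩
  have := hφ hq
  simp at this

lemma coverage_fc (φ : Fin p × (Z ⊕ Z × Bool) → V) (c : Fin p → Z) : IsCoverage (fc φ c) := by
  refine ⟨Z × Fin p, inferInstance, fun t e => ∏ k : Fin p × Z × Bool,
    if ed φ k.1 k.2.1 t.1 k.2.2 = e then gg c t.2 k.1 k.2.1 else 1, fun t e => ⟨?_, ?_⟩,
    fun S => ?_⟩
  · refine prod_nonneg fun k _ => ?_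
    split_ifs
    · exact gg_nonneg _ _ _ _
    · exact zero_le_one
  · refine prod_le_one (fun k _ => ?_) fun k _ => ?_
    · split_ifs
      · exact gg_nonneg _ _ _ _
      · exact zero_le_one
    · split_ifs
      · exact gg_le_one _ _ _ _
      · exact le_rfl
  · unfold fc
    exact sum_congr rfl fun t _ => by rw [pw_eq_prod]

open Classical in
/-- A hard stream exists. -/
theorem exists_hard' [Nonempty Z] (hφ : Function.Injective φ) [Fintype Ω] (μ : Ω → ℝ)
    (hμ0 : ∀ ω, 0 ≤ μ ω) (hμ1 : ∑ ω, μ ω = 1) (A : Alg V Ω b) (hA : A.Legal) {α : ℝ} (hα : 0 < α)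
    {K : ℕ} (hK : 0 < K)
    (hKα : α * (Fintype.card Z * (((p : ℝ) + 1) / 2) + p * ((K : ℝ) - 1)) < Fintype.card Z * p) :
    ∃ (y : Fin p → Z → Z → Bool) (c : Fin p → Z),
      prob μ (fun ω => Success α (fc φ c) (strm φ (List.finRange p) y)
        (A.output ω (fc φ c) (strm φ (List.finRange p) y))) ≤
        p * (b + Fintype.card Z + 1) / (K * Fintype.card Z) := by
  set N := Fintype.card Z with hN
  have hN0 : (0 : ℝ) < N := by exact_mod_cast Fintype.card_pos
  have hK0 : (0 : ℝ) < K := by exact_mod_cast hK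
  let W := Fin p → (Z → Z → Bool) × Z
  let ys : W → Fin p → Z → Z → Bool := fun w i => (w i).1
  let cs : W → Fin p → Z := fun w i => (w i).2
  let st : W → List (Sym2 V) := fun w => strm φ (List.finRange p) (ys w)
  let MM : Ω → W → Finset (Sym2 V) := fun ω w => A.output ω (fc φ (cs w)) (st w)
  let good : Fin p → Ω → W → Prop := fun j ω w => Success α (fc φ (cs w)) (st w) (MM ω w) ∧
    K ≤ (univ.filter fun u => ed φ j (cs w j) u (ys w j (cs w j) u) ∈ MM ω w).card
  have h1 : ∀ j ω, ∑ w : W, (if good j ω w then (1 : ℝ) else 0) ≤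
      (b + N + 1) / (K * N) * Fintype.card W := by
    intro j ω
    have h2 := sum_update (fun w : W => if good j ω w then (1 : ℝ) else 0) j
      (fun w => phase_bound hφ A hA ω α hK j w)
    have h3 : (Fintype.card ((Z → Z → Bool) × Z) : ℝ) = 2 ^ (N * N) * N := by
      rw [Fintype.card_prod]
      simp only [Fintype.card_fun, Fintype.card_bool, ← hN]
      rw [← pow_mul]
      push_cast
      ring
    rw [h3] at h2
    have h4 : (0 : ℝ) < 2 ^ (N * N) * N := by positivity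
    have h5 : ∑ w : W, (if good j ω w then (1 : ℝ) else 0) ≤
        (b + N + 1) * 2 ^ (N * N) / K * Fintype.card W / (2 ^ (N * N) * N) := by
      rw [le_div_iff₀ h4, mul_comm]
      exact h2
    refine h5.trans (le_of_eq ?_)
    field_simp
  have h2 : ∀ ω w, (if Success α (fc φ (cs w)) (st w) (MM ω w) then (1 : ℝ) else 0) ≤
      ∑ j, (if good j ω w then (1 : ℝ) else 0) := by
    intro ω w
    by_cases hs : Success α (fc φ (cs w)) (st w) (MM ω w)
    · rw [if_pos hs]
      by_contra hcon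
      have hno : ∀ j, ¬ good j ω w := by
        intro j hj
        apply hcon
        refine le_trans ?_ (single_le_sum (f := fun j => if good j ω w then (1 : ℝ) else 0)
          (fun j _ => by positivity) (mem_univ j))
        rw [if_pos hj]
      have h3 := hs.2.2 _ (star_sub (ys w) (cs w)) (star_matching hφ _ _)
      rw [fc_star hφ] at h3
      have h4 := fc_le hφ hs.1 hs.2.1 (cs w)
      have h5 : (∑ j : Fin p, if (j : ℕ) + 1 < p then
          ((univ.filter fun u => ed φ j (cs w j) u (ys w j (cs w j) u) ∈ MM ω w).card : ℝ)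
            else 0) ≤ ∑ _j : Fin p, ((K : ℝ) - 1) := by
        refine sum_le_sum fun j _ => ?_
        have h6 : (univ.filter fun u => ed φ j (cs w j) u (ys w j (cs w j) u) ∈ MM ω w).card < K := by
          by_contra h7
          exact hno j ⟨hs, not_lt.1 h7⟩
        have h7 : ((univ.filter fun u => ed φ j (cs w j) u (ys w j (cs w j) u) ∈ MM ω w).card : ℝ)
            + 1 ≤ K := by exact_mod_cast h6
        have h8 : (1 : ℝ) ≤ K := by exact_mod_cast hK
        split_ifs <;> linarith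
      rw [sum_const, card_univ, Fintype.card_fin, nsmul_eq_mul] at h5
      have h6 : α * fc φ (cs w) (MM ω w) ≤ α * (N * (((p : ℝ) + 1) / 2) + p * ((K : ℝ) - 1)) :=
        mul_le_mul_of_nonneg_left (by linarith) hα.le
      linarith
    · rw [if_neg hs]
      exact sum_nonneg fun j _ => by positivity
  have h3 : ∑ w : W, ∑ ω, (if Success α (fc φ (cs w)) (st w) (MM ω w) then μ ω else 0) ≤
      ∑ _w : W, (p * (b + N + 1) / (K * N) : ℝ) := by
    calc ∑ w : W, ∑ ω, (if Success α (fc φ (cs w)) (st w) (MM ω w) then μ ω else 0)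
        ≤ ∑ w : W, ∑ ω, μ ω * ∑ j, (if good j ω w then (1 : ℝ) else 0) := by
          refine sum_le_sum fun w _ => sum_le_sum fun ω _ => ?_
          have h4 := mul_le_mul_of_nonneg_left (h2 ω w) (hμ0 ω)
          refine le_trans (le_of_eq ?_) h4
          split_ifs <;> ring
      _ = ∑ ω, μ ω * ∑ j, ∑ w : W, (if good j ω w then (1 : ℝ) else 0) := by
          rw [sum_comm]
          refine sum_congr rfl fun ω _ => ?_
          rw [← mul_sum, sum_comm]
      _ ≤ ∑ ω, μ ω * ∑ _j : Fin p, (b + N + 1) / (K * N) * (Fintype.card W : ℝ) := by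
          refine sum_le_sum fun ω _ => mul_le_mul_of_nonneg_left ?_ (hμ0 ω)
          exact sum_le_sum fun j _ => h1 j ω
      _ = ∑ _w : W, (p * (b + N + 1) / (K * N) : ℝ) := by
          rw [← sum_mul, hμ1, one_mul, sum_const, sum_const, card_univ, card_univ,
            Fintype.card_fin, nsmul_eq_mul, nsmul_eq_mul]
          ring
  have hW : (univ : Finset W).Nonempty := by
    obtain ⟨z⟩ := ‹Nonempty Z›
    exact ⟨fun _ => (fun _ _ => false, z), mem_univ _⟩
  obtain ⟨w, _, hw⟩ := exists_le_of_sum_le hW h3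
  exact ⟨ys w, cs w, hw⟩

end alg

/-- The lower bound with a parameter `p` (the number of phases). -/
theorem lower_param {α η γ : ℝ} (hα0 : 0 < α) (hη : 0 < η) {p : ℕ} (hp1 : 0 < p)
    (hγ : γ = 1 / α - 1 / 2 - 1 / (2 * p)) (hγ0 : 0 < γ) {n b : ℕ} (hn1 : 6 * p ≤ n)
    (hn2 : 24 * (p : ℝ) ^ 2 / (γ * η) ≤ n) (hb : (b : ℝ) ≤ η * γ / (72 * p ^ 3) * n ^ 2)
    (Ω : Type) [Fintype Ω] (μ : Ω → ℝ) (hμ0 : ∀ ω, 0 ≤ μ ω) (hμ1 : ∑ ω, μ ω = 1)
    (A : Alg (Fin n) Ω b) (hA : A.Legal) :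
    ∃ (h : List (Sym2 (Fin n))) (f : Finset (Sym2 (Fin n)) → ℝ),
        IsStream h ∧ IsBipartite h ∧ IsCoverage f ∧ MonoSub f ∧
          prob μ (fun ω => Success α f h (A.output ω f h)) ≤ η := by
  have hp0 : (0 : ℝ) < p := by exact_mod_cast hp1
  set N := n / (3 * p) with hN
  have hN1 : n ≤ 6 * p * N := by
    have h1 := Nat.div_add_mod n (3 * p)
    have h2 := Nat.mod_lt n (show 0 < 3 * p by omega)
    have h3 : 2 ≤ N := by
      rw [hN, Nat.le_div_iff_mul_le (by omega)]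
      linarith
    rw [← hN] at h1
    nlinarith
  have hn0 : 0 < n := by omega
  have hN0 : 0 < N := by
    rcases Nat.eq_zero_or_pos N with h | h
    · rw [h] at hN1; omega
    · exact h
  have : NeZero N := ⟨hN0.ne'⟩
  have hcard : Fintype.card (ZMod N) = N := ZMod.card N
  obtain ⟨φ⟩ : Nonempty (Fin p × (ZMod N ⊕ ZMod N × Bool) ↪ Fin n) := by
    refine Function.Embedding.nonempty_of_card_le ?_
    rw [Fintype.card_prod, Fintype.card_sum, Fintype.card_prod, hcard, Fintype.card_bool,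
      Fintype.card_fin, Fintype.card_fin]
    calc p * (N + N * 2) = 3 * p * N := by ring
      _ ≤ n := Nat.mul_div_le n (3 * p)
  have hNr : (0 : ℝ) < N := by exact_mod_cast hN0
  have hK1 : γ * N ≤ ⌈γ * N⌉₊ := Nat.le_ceil _
  have hK2 : (⌈γ * N⌉₊ : ℝ) < γ * N + 1 := Nat.ceil_lt_add_one (by positivity)
  have hK0 : 0 < ⌈γ * N⌉₊ := Nat.ceil_pos.2 (by positivity)
  obtain ⟨y, c, hpr⟩ := exists_hard' φ.injective μ hμ0 hμ1 A hA hα0 hK0 (by
    rw [hcard]
    have h1 : (p : ℝ) * ((⌈γ * N⌉₊ : ℝ) - 1) < p * (γ * N) :=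
      mul_lt_mul_of_pos_left (by linarith) hp0
    have h2 : α * (N * (((p : ℝ) + 1) / 2) + p * (γ * N)) = N * p := by
      rw [hγ]
      field_simp
      ring
    calc α * (N * (((p : ℝ) + 1) / 2) + p * ((⌈γ * N⌉₊ : ℝ) - 1))
        < α * (N * (((p : ℝ) + 1) / 2) + p * (γ * N)) :=
          mul_lt_mul_of_pos_left (by linarith) hα0
      _ = N * p := h2)
  refine ⟨_, _, isStream_strm φ.injective (List.nodup_finRange p) y,
    bipartite_strm φ.injective y, coverage_fc φ c, monoSub_fc φ c, hpr.trans ?_⟩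
  rw [hcard]
  have hNn : (n : ℝ) ≤ 6 * p * N := by exact_mod_cast hN1
  have hN1' : (1 : ℝ) ≤ N := by exact_mod_cast hN0
  have h1 : (p : ℝ) * (b + N + 1) / (⌈γ * N⌉₊ * N) ≤ p * (b + N + 1) / (γ * N * N) := by
    gcongr
  refine h1.trans ?_
  rw [div_le_iff₀ (by positivity)]
  have h2 : (p : ℝ) * b ≤ η / 2 * (γ * N * N) := by
    have h3 : (b : ℝ) ≤ η * γ / (72 * p ^ 3) * (6 * p * N) ^ 2 := by
      refine hb.trans ?_
      gcongr
    calc (p : ℝ) * b ≤ p * (η * γ / (72 * p ^ 3) * (6 * p * N) ^ 2) :=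
          mul_le_mul_of_nonneg_left h3 hp0.le
      _ = η / 2 * (γ * N * N) := by field_simp; ring
  have h4 : (p : ℝ) * (N + 1) ≤ η / 2 * (γ * N * N) := by
    have h5 : 24 * (p : ℝ) ^ 2 ≤ 6 * p * N * (γ * η) := by
      rw [div_le_iff₀ (by positivity)] at hn2
      refine hn2.trans ?_
      gcongr
    have h6 : 4 * (p : ℝ) ≤ N * (γ * η) := by
      have h7 : 6 * (p : ℝ) * (4 * p) ≤ 6 * p * (N * (γ * η)) := by
        calc 6 * (p : ℝ) * (4 * p) = 24 * (p : ℝ) ^ 2 := by ring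
          _ ≤ _ := h5
          _ = _ := by ring
      exact le_of_mul_le_mul_left h7 (by positivity)
    calc (p : ℝ) * (N + 1) ≤ p * (2 * N) := by gcongr; linarith
      _ = 4 * p * (N / 2) := by ring
      _ ≤ N * (γ * η) * (N / 2) := by gcongr
      _ = _ := by ring
  calc (p : ℝ) * (b + N + 1) = p * b + p * (N + 1) := by ring
    _ ≤ η / 2 * (γ * N * N) + η / 2 * (γ * N * N) := add_le_add h2 h4
    _ = η * (γ * N * N) := by ring

/-- The explicit lower bound. -/
theorem lower_explicit {ε η : ℝ} (hε : 0 < ε) (hε1 : ε ≤ 1) (hη : 0 < η) (hη1 : η ≤ 1) {n b : ℕ}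
    (hn : 4800 ≤ ε ^ 3 * η * n) (hb : 72000 * (b : ℝ) ≤ η * ε ^ 4 * n ^ 2)
    (Ω : Type) [Fintype Ω] (μ : Ω → ℝ) (hμ0 : ∀ ω, 0 ≤ μ ω) (hμ1 : ∑ ω, μ ω = 1)
    (A : Alg (Fin n) Ω b) (hA : A.Legal) :
    ∃ (h : List (Sym2 (Fin n))) (f : Finset (Sym2 (Fin n)) → ℝ),
        IsStream h ∧ IsBipartite h ∧ IsCoverage f ∧ MonoSub f ∧
          prob μ (fun ω => Success (2 - ε) f h (A.output ω f h)) ≤ η := by
  set p := ⌈4 / ε⌉₊ with hp
  have h4 : 4 ≤ 4 / ε := by rw [le_div_iff₀ hε]; linarith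
  have hpl : 4 / ε ≤ p := Nat.le_ceil _
  have hpu : (p : ℝ) < 4 / ε + 1 := Nat.ceil_lt_add_one (by positivity)
  have hp0 : (0 : ℝ) < p := by linarith
  have hp1 : 0 < p := by exact_mod_cast hp0
  have h1ε : 1 ≤ 1 / ε := by rw [le_div_iff₀ hε]; linarith
  have hpu' : (p : ℝ) ≤ 5 / ε := by
    have : 4 / ε + 1 ≤ 5 / ε := by
      have e1 : 5 / ε = 4 / ε + 1 / ε := by ring
      rw [e1]
      linarith
    linarith
  have hpε : (p : ℝ) * ε ≤ 5 := by
    rw [le_div_iff₀ hε] at hpu'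
    exact hpu'
  have hpε4 : 4 ≤ (p : ℝ) * ε := by
    rw [div_le_iff₀ hε] at hpl
    exact hpl
  have hα : 0 < 2 - ε := by linarith
  set γ : ℝ := 1 / (2 - ε) - 1 / 2 - 1 / (2 * p) with hγ
  have hγl : ε / 8 ≤ γ := by
    have e1 : 1 / (2 - ε) - 1 / 2 = ε / (2 * (2 - ε)) := by
      field_simp
      ring
    have e2 : ε / 4 ≤ ε / (2 * (2 - ε)) := by
      apply div_le_div_of_nonneg_left hε.le (by positivity)
      linarith
    have e3 : 1 / (2 * (p : ℝ)) ≤ ε / 8 := by
      rw [div_le_div_iff₀ (by positivity) (by norm_num)]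
      linarith
    rw [hγ, e1]
    linarith
  have hγ0 : 0 < γ := lt_of_lt_of_le (by positivity) hγl
  have hnr : (0 : ℝ) ≤ n := Nat.cast_nonneg n
  refine lower_param hα hη hp1 hγ hγ0 ?_ ?_ ?_ Ω μ hμ0 hμ1 A hA
  · have e1 : (6 * p : ℝ) ≤ n := by
      have e2 : ε ^ 3 * η * n ≤ ε * n := by
        have : ε ^ 3 * η ≤ ε := by
          calc ε ^ 3 * η ≤ ε ^ 3 * 1 := by gcongr
            _ = ε ^ 2 * ε := by ring
            _ ≤ 1 * ε := by
                gcongr
                exact pow_le_one₀ hε.le hε1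
            _ = ε := one_mul _
        exact mul_le_mul_of_nonneg_right this hnr
      have e3 : 6 * (p : ℝ) * ε ≤ n * ε := by nlinarith
      exact le_of_mul_le_mul_right e3 hε
    exact_mod_cast e1
  · rw [div_le_iff₀ (by positivity)]
    have e1 : 24 * (p : ℝ) ^ 2 * ε ^ 2 ≤ 600 := by
      have : ((p : ℝ) * ε) ^ 2 ≤ 5 ^ 2 := by gcongr
      nlinarith
    have e2 : 24 * (p : ℝ) ^ 2 * ε ^ 2 ≤ n * (ε / 8 * η) * ε ^ 2 := by
      have : (n : ℝ) * (ε / 8 * η) * ε ^ 2 = ε ^ 3 * η * n / 8 := by ring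
      rw [this]
      linarith
    have e3 : 24 * (p : ℝ) ^ 2 ≤ n * (ε / 8 * η) := le_of_mul_le_mul_right e2 (by positivity)
    refine e3.trans ?_
    gcongr
  · have e1 : (p : ℝ) ^ 3 * ε ^ 3 ≤ 125 := by
      have : ((p : ℝ) * ε) ^ 3 ≤ 5 ^ 3 := by gcongr
      nlinarith
    rw [div_mul_eq_mul_div, le_div_iff₀ (by positivity)]
    have e2 : (b : ℝ) * (72 * p ^ 3) * ε ^ 3 ≤ η * γ * n ^ 2 * ε ^ 3 := by
      have hb0 : (0 : ℝ) ≤ b := Nat.cast_nonneg b
      calc (b : ℝ) * (72 * p ^ 3) * ε ^ 3 = 72 * (b : ℝ) * ((p : ℝ) ^ 3 * ε ^ 3) := by ring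
        _ ≤ 72 * (b : ℝ) * 125 := by gcongr
        _ = 72000 * (b : ℝ) / 8 := by ring
        _ ≤ η * ε ^ 4 * n ^ 2 / 8 := by linarith
        _ = η * (ε / 8) * n ^ 2 * ε ^ 3 := by ring
        _ ≤ η * γ * n ^ 2 * ε ^ 3 := by gcongr
    exact le_of_mul_le_mul_right e2 (by positivity)

end Pool.Agent.H66.SM
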